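import Pool.Agent.TH331.HV.Defs

set_option autoImplicit false

namespace Pool.Agent.TH331.HV

variable {V : Type*}

/-- the four point condition with constant `K` -/
def FourPoint (G : SimpleGraph V) (K : ℕ) : Prop := ∀ a b c d : V,
  G.dist a b + G.dist c d ≤ max (G.dist a c + G.dist b d) (G.dist a d + G.dist b c) + K

theorem chain_aux (G : SimpleGraph V) (hG : G.Connected) (K : ℕ) (hK : FourPoint G K) (w : V) :
    ∀ (k : ℕ) (a b : V) (p : G.Walk a b), p.length ≤ 2 ^ k →
      ∃ u ∈ p.support, (2 * G.dist w u + G.dist a b : ℤ) ≤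
        G.dist w a + G.dist w b + K * k + 1 := by
  intro k
  induction k with
  | zero =>
    intro a b p hp
    simp only [pow_zero] at hp
    have hab : G.dist a b ≤ 1 := (SimpleGraph.dist_le p).trans hp
    by_cases h : G.dist w a ≤ G.dist w b
    · refine ⟨a, p.start_mem_support, ?_⟩
      push_cast
      have : (G.dist w a : ℤ) ≤ G.dist w b := by exact_mod_cast h
      have h2 : (G.dist a b : ℤ) ≤ 1 := by exact_mod_cast hab
      linarith
    · refine ⟨b, p.end_mem_support, ?_⟩
      push_cast
      have : (G.dist w b : ℤ) ≤ G.dist w a := by exact_mod_cast (not_le.mp h).le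
      have h2 : (G.dist a b : ℤ) ≤ 1 := by exact_mod_cast hab
      linarith
  | succ k ih =>
    intro a b p hp
    classical
    -- split the walk
    set m := min (2 ^ k) p.length with hm
    set c := p.getVert m with hc
    have h1 : (p.take m).length ≤ 2 ^ k := by
      rw [SimpleGraph.Walk.take_length]
      omega
    have h2 : (p.drop m).length ≤ 2 ^ k := by
      rw [SimpleGraph.Walk.drop_length]
      rw [pow_succ] at hp
      omega
    obtain ⟨u1, hu1, hi1⟩ := ih a c (p.take m) h1
    obtain ⟨u2, hu2, hi2⟩ := ih c b (p.drop m) h2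
    have h4 := hK w c a b
    have hsub : ∀ u, (u ∈ (p.take m).support ∨ u ∈ (p.drop m).support) → u ∈ p.support := by
      intro u hu
      rw [← p.append_take_drop_eq m, SimpleGraph.Walk.mem_support_append_iff]
      exact hu
    have hca : G.dist c a = G.dist a c := SimpleGraph.dist_comm
    rcases le_total (G.dist w a + G.dist c b) (G.dist w b + G.dist c a) with hmx | hmx
    · rw [max_eq_right hmx] at h4
      refine ⟨u1, hsub u1 (Or.inl hu1), ?_⟩
      rw [hca] at h4
      zify at h4
      push_cast at hi1 ⊢
      linarith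
    · rw [max_eq_left hmx] at h4
      refine ⟨u2, hsub u2 (Or.inr hu2), ?_⟩
      zify at h4
      push_cast at hi2 ⊢
      linarith

/-- A walk of length at most `2 ^ k` between the ends of a geodesic passes near every point of the
geodesic. -/
theorem chain (G : SimpleGraph V) (hG : G.Connected) (K : ℕ) (hK : FourPoint G K) (w : V)
    (k : ℕ) (a b : V) (p : G.Walk a b) (hp : p.length ≤ 2 ^ k)
    (hw : G.dist w a + G.dist w b = G.dist a b) :
    ∃ u ∈ p.support, 2 * G.dist w u ≤ K * k + 1 := by
  obtain ⟨u, hu, h⟩ := chain_aux G hG K hK w k a b p hp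
  refine ⟨u, hu, ?_⟩
  zify at hw ⊢
  linarith

/-- there is a vertex in the middle of a geodesic -/
theorem exists_mid (G : SimpleGraph V) (hG : G.Connected) (a b : V) :
    ∃ w : V, G.dist w a + G.dist w b = G.dist a b ∧ G.dist a b ≤ 2 * G.dist w a + 1 ∧
      G.dist a b ≤ 2 * G.dist w b + 1 := by
  obtain ⟨p, hp⟩ := hG.exists_walk_length_eq_dist a b
  set m := p.length / 2 with hm
  have hml : m ≤ p.length := Nat.div_le_self _ _
  have h1 : G.dist a (p.getVert m) ≤ m := by
    refine (SimpleGraph.dist_le (p.take m)).trans ?_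
    rw [SimpleGraph.Walk.take_length]
    exact min_le_left _ _
  have h2 : G.dist (p.getVert m) b ≤ p.length - m := by
    refine (SimpleGraph.dist_le (p.drop m)).trans ?_
    rw [SimpleGraph.Walk.drop_length]
  have h3 := hG.dist_triangle (u := a) (v := p.getVert m) (w := b)
  refine ⟨p.getVert m, ?_, ?_, ?_⟩
  · rw [SimpleGraph.dist_comm (u := p.getVert m) (v := a)]; omega
  · rw [SimpleGraph.dist_comm (u := p.getVert m) (v := a)]; omega
  · omega

end Pool.Agent.TH331.HV
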