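import Mathlib

/-!
# Hyperbolic Poisson Voronoi graph: definitions
-/

set_option autoImplicit false

open MeasureTheory ProbabilityTheory UpperHalfPlane
open scoped NNReal ENNReal UpperHalfPlane MeasureTheory

namespace Pool.Agent.TH331.HV

/-- `S` is a Poisson point process on the hyperbolic plane (upper half plane model) whose intensity
is `lam` times the hyperbolic area measure `volume` (that is `dx dy / y ^ 2`): it is locally finite,
the number of points in a bounded measurable set has the Poisson law whose parameter is `lam` times
the area, and the numbers of points in disjoint bounded measurable sets are independent. -/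
structure IsPoissonProcess {Ω : Type*} [MeasurableSpace Ω] (P : Measure Ω) (lam : ℝ≥0)
    (S : Ω → Set ℍ) : Prop where
  finite : ∀ (ω : Ω) (A : Set ℍ), Bornology.IsBounded A → (S ω ∩ A).Finite
  meas : ∀ A : Set ℍ, MeasurableSet A → Bornology.IsBounded A →
    Measurable (fun ω => (S ω ∩ A).ncard)
  law : ∀ A : Set ℍ, MeasurableSet A → Bornology.IsBounded A →
    P.map (fun ω => (S ω ∩ A).ncard) = poissonMeasure (lam * (volume A).toNNReal)
  indep : ∀ (k : ℕ) (A : Fin k → Set ℍ), (∀ i, MeasurableSet (A i)) →
    (∀ i, Bornology.IsBounded (A i)) → Pairwise (fun i j => Disjoint (A i) (A j)) →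
    iIndepFun (fun i ω => (S ω ∩ A i).ncard) P

/-- The Voronoi cell of `p`: the points whose hyperbolic distance to `p` is at most their distance
to every point of `S`. -/
def cell (S : Set ℍ) (p : ℍ) : Set ℍ := {z | ∀ q ∈ S, dist z p ≤ dist z q}

/-- The dual graph of the Voronoi tessellation: two different points of `S` are adjacent when the
common part of their cells has positive length (one-dimensional Hausdorff measure), i.e. when the
cells share a boundary segment of positive length. -/
def vor (S : Set ℍ) : SimpleGraph S where
  Adj p q := p ≠ q ∧ 0 < μH[1] (cell S (p : ℍ) ∩ cell S (q : ℍ))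
  symm := ⟨fun p q h => ⟨h.1.symm, by rw [Set.inter_comm]; exact h.2⟩⟩
  loopless := ⟨fun p h => h.1 rfl⟩

/-- All geodesic triangles of `G` that have `x` as one of their vertices are `δ`-thin: every vertex
of each of the three sides is at distance at most `δ` from the union of the two other sides. The
sides are arbitrary walks of minimal length. -/
def ThinAt {V : Type*} (G : SimpleGraph V) (x : V) (δ : ℕ) : Prop :=
  ∀ (y z : V) (a : G.Walk x y) (b : G.Walk y z) (c : G.Walk z x),
    a.length = G.dist x y → b.length = G.dist y z → c.length = G.dist z x →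
    (∀ u ∈ a.support, ∃ v, (v ∈ b.support ∨ v ∈ c.support) ∧ G.dist u v ≤ δ) ∧
    (∀ u ∈ b.support, ∃ v, (v ∈ c.support ∨ v ∈ a.support) ∧ G.dist u v ≤ δ) ∧
    (∀ u ∈ c.support, ∃ v, (v ∈ a.support ∨ v ∈ b.support) ∧ G.dist u v ≤ δ)

/-- Small half-open squares of side `1/N` in the square `[b, b+1) × [1, 2)`. -/
def box (b : ℝ) (N i k : ℕ) : Set ℍ :=
  {z | b + i / N ≤ z.re ∧ z.re < b + (i + 1) / N ∧ 1 + k / N ≤ z.im ∧ z.im < 1 + (k + 1) / N}

end Pool.Agent.TH331.HV
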