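import Pool.Agent.TH331.HV.Main
import Pool.Agent.TH511.HVBox

/-!
# Final assembly
-/

set_option autoImplicit false

open MeasureTheory ProbabilityTheory UpperHalfPlane
open scoped NNReal ENNReal UpperHalfPlane

namespace Pool.Agent.TH331.HV

theorem final {Ω : Type*} [MeasurableSpace Ω] (P : Measure Ω) [IsProbabilityMeasure P]
    (lam : ℝ≥0) (hlam : 0 < lam) (S : Ω → Set ℍ) (hS : IsPoissonProcess P lam S) :
    ∀ᵐ ω ∂P, (S ω).Nonempty ∧ (vor (S ω)).Connected ∧
      ∀ (x : S ω) (δ : ℕ), ¬ ThinAt (vor (S ω)) x δ := by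
  have h : ∀ᵐ ω ∂P, ∀ N : ℕ, 0 < N → ∃ b : ℝ, ∀ i < N, ∀ k < N, (S ω ∩ box b N i k).ncard = 1 := by
    rw [ae_all_iff]
    intro N
    by_cases hN : 0 < N
    · filter_upwards [Pool.Agent.TH511.HVBox.exists_box P lam hlam S hS N hN] with ω hω _ using hω
    · exact Filter.Eventually.of_forall fun ω h => absurd h hN
  filter_upwards [h] with ω hω
  exact deterministic (hS.finite ω) hω

end Pool.Agent.TH331.HV
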