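import Pool.Agent.TH331.HV.Chain

set_option autoImplicit false

open UpperHalfPlane
open scoped UpperHalfPlane

namespace Pool.Agent.TH331.HV

/-- The big square. -/
def bigQ (b : ℝ) : Set ℍ := {z | b ≤ z.re ∧ z.re < b + 1 ∧ 1 ≤ z.im ∧ z.im < 2}

/-- Every small square contains exactly one point. -/
def OneEach (S : Set ℍ) (b : ℝ) (N : ℕ) : Prop :=
  ∀ i < N, ∀ k < N, (S ∩ box b N i k).ncard = 1

theorem floor_lt {N : ℕ} (hN : 0 < N) {t : ℝ} (h0 : 0 ≤ t) (h1 : t < 1) :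
    ⌊N * t⌋₊ < N ∧ (⌊N * t⌋₊ : ℝ) / N ≤ t ∧ t < ((⌊N * t⌋₊ : ℝ) + 1) / N := by
  have hN' : (0 : ℝ) < N := by exact_mod_cast hN
  have hnt : 0 ≤ N * t := by positivity
  refine ⟨?_, ?_, ?_⟩
  · rw [Nat.floor_lt hnt]
    nlinarith
  · rw [div_le_iff₀ hN']
    have := Nat.floor_le hnt
    linarith
  · rw [lt_div_iff₀ hN']
    have := Nat.lt_floor_add_one (N * t)
    linarith

/-- the index pair of the small square of a point -/
noncomputable def idx (b : ℝ) (N : ℕ) (z : ℍ) : ℕ × ℕ := (⌊N * (z.re - b)⌋₊, ⌊N * (z.im - 1)⌋₊)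

theorem mem_box_idx {b : ℝ} {N : ℕ} (hN : 0 < N) {z : ℍ} (hz : z ∈ bigQ b) :
    (idx b N z).1 < N ∧ (idx b N z).2 < N ∧ z ∈ box b N (idx b N z).1 (idx b N z).2 := by
  obtain ⟨h1, h2, h3, h4⟩ := hz
  obtain ⟨a1, a2, a3⟩ := floor_lt hN (t := z.re - b) (by linarith) (by linarith)
  obtain ⟨b1, b2, b3⟩ := floor_lt hN (t := z.im - 1) (by linarith) (by linarith)
  refine ⟨a1, b1, ?_, ?_, ?_, ?_⟩
  · simp only [idx]; linarith
  · simp only [idx]; linarith
  · simp only [idx]; linarith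
  · simp only [idx]; linarith

theorem box_sub {b : ℝ} {N : ℕ} (hN : 0 < N) {i k : ℕ} (hi : i < N) (hk : k < N) {z : ℍ}
    (hz : z ∈ box b N i k) : z ∈ bigQ b := by
  have hN' : (0 : ℝ) < N := by exact_mod_cast hN
  obtain ⟨h1, h2, h3, h4⟩ := hz
  have e1 : (0 : ℝ) ≤ (i : ℝ) / N := by positivity
  have e2 : (0 : ℝ) ≤ (k : ℝ) / N := by positivity
  have e3 : ((i : ℝ) + 1) / N ≤ 1 := by
    rw [div_le_one hN']; exact_mod_cast hi
  have e4 : ((k : ℝ) + 1) / N ≤ 1 := by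
    rw [div_le_one hN']; exact_mod_cast hk
  exact ⟨by linarith, by linarith, by linarith, by linarith⟩

theorem dist_le_of_coords {z w : ℍ} {r : ℝ} (hx : |z.re - w.re| ≤ r) (hy : |z.im - w.im| ≤ r) :
    dist (z : ℂ) w ≤ 2 * r := by
  rw [Complex.dist_eq]
  calc ‖(z : ℂ) - w‖ ≤ |((z : ℂ) - w).re| + |((z : ℂ) - w).im| := Complex.norm_le_abs_re_add_abs_im _
    _ ≤ 2 * r := by
      simp only [Complex.sub_re, Complex.sub_im, coe_re, coe_im]
      linarith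

theorem hdist_le {z w : ℍ} (hz : 1 ≤ z.im) (hw : 1 ≤ w.im) : dist z w ≤ dist (z : ℂ) w := by
  refine (dist_le_dist_coe_div_sqrt z w).trans ?_
  apply div_le_self dist_nonneg
  rw [Real.one_le_sqrt]
  nlinarith

theorem exists_near {S : Set ℍ} {b : ℝ} {N : ℕ} (hN : 0 < N) (h : OneEach S b N) {z : ℍ}
    (hz : z ∈ bigQ b) :
    ∃ s ∈ S, s ∈ bigQ b ∧ |z.re - s.re| ≤ 1 / N ∧ |z.im - s.im| ≤ 1 / N ∧
      dist (z : ℂ) s ≤ 2 / N ∧ dist z s ≤ 2 / N := by
  obtain ⟨h1, h2, h3⟩ := mem_box_idx hN hz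
  have h4 := h _ h1 _ h2
  obtain ⟨s, hs⟩ := Set.ncard_eq_one.mp h4
  have hs' : s ∈ S ∩ box b N (idx b N z).1 (idx b N z).2 := by rw [hs]; exact Set.mem_singleton s
  have hsQ := box_sub hN h1 h2 hs'.2
  obtain ⟨c1, c2, c3, c4⟩ := h3
  obtain ⟨d1, d2, d3, d4⟩ := hs'.2
  have e1 : (((idx b N z).1 : ℝ) + 1) / N = ((idx b N z).1 : ℝ) / N + 1 / N := by ring
  have e2 : (((idx b N z).2 : ℝ) + 1) / N = ((idx b N z).2 : ℝ) / N + 1 / N := by ring
  rw [e1] at c2 d2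
  rw [e2] at c4 d4
  have hx : |z.re - s.re| ≤ 1 / N := by rw [abs_le]; constructor <;> linarith
  have hy : |z.im - s.im| ≤ 1 / N := by rw [abs_le]; constructor <;> linarith
  have hd : dist (z : ℂ) s ≤ 2 / N := by
    have := dist_le_of_coords hx hy
    rwa [show (2 : ℝ) * (1 / N) = 2 / N by ring] at this
  exact ⟨s, hs'.1, hsQ, hx, hy, hd, (hdist_le hz.2.2.1 hsQ.2.2.1).trans hd⟩

theorem dist_cell_le {S : Set ℍ} {b : ℝ} {N : ℕ} (hN : 0 < N) (h : OneEach S b N) {z p : ℍ}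
    (hz : z ∈ bigQ b) (hzp : z ∈ cell S p) : dist z p ≤ 2 / N := by
  obtain ⟨s, hs, -, -, -, -, hd⟩ := exists_near hN h hz
  exact (hzp s hs).trans hd

/-- Euclidean closeness of a point of a cell and its nucleus. -/
theorem coe_dist_cell_le {S : Set ℍ} {b : ℝ} {N : ℕ} (hN : 2 ≤ N) (h : OneEach S b N) {z p : ℍ}
    (hz : z ∈ bigQ b) (hzp : z ∈ cell S p) : dist (z : ℂ) p ≤ 8 / N := by
  have hN0 : 0 < N := by omega
  have hN' : (0 : ℝ) < N := by exact_mod_cast hN0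
  have h1 := dist_cell_le hN0 h hz hzp
  have h2 := dist_coe_le p z
  have h3 : dist p z ≤ 2 / N := by rwa [dist_comm]
  have h4 : (2 : ℝ) / N ≤ 1 := by rw [div_le_one hN']; exact_mod_cast hN
  have h5 : Real.exp (dist p z) - 1 ≤ 4 / N := by
    have h6 : Real.exp (dist p z) ≤ 1 + dist p z + (dist p z) ^ 2 := by
      have := Real.abs_exp_sub_one_sub_id_le (x := dist p z) (by
        rw [abs_of_nonneg dist_nonneg]; linarith)
      rw [abs_le] at this
      linarith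
    have h7 : (dist p z) ^ 2 ≤ 2 / N := by
      have : (dist p z) ^ 2 ≤ dist p z := by
        nlinarith [dist_nonneg (x := p) (y := z)]
      linarith
    have : (4 : ℝ) / N = 2 / N + 2 / N := by ring
    linarith
  have h8 : z.im * (Real.exp (dist p z) - 1) ≤ 2 * (4 / N) := by
    have := hz.2.2.2
    have h9 : 0 ≤ Real.exp (dist p z) - 1 := by
      have := Real.add_one_le_exp (dist p z)
      have := dist_nonneg (x := p) (y := z)
      linarith
    nlinarith [z.im_pos]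
  rw [dist_comm (z : ℂ) p]
  calc dist (p : ℂ) z ≤ _ := h2
    _ ≤ _ := h8
    _ = 8 / N := by ring

end Pool.Agent.TH331.HV
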