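import Pool.Agent.TH331.HV.Geo

set_option autoImplicit false

open UpperHalfPlane MeasureTheory
open scoped UpperHalfPlane MeasureTheory

namespace Pool.Agent.TH331.HV

/-- paths inside cells (job HV-3) -/
def HasPaths : Prop := ∀ a b : ℍ, ∃ γ : ℝ → ℍ, ContinuousOn γ (Set.Icc 0 1) ∧ γ 0 = a ∧ γ 1 = b ∧
    ∀ (S : Set ℍ) (p : ℍ), a ∈ cell S p → b ∈ cell S p → ∀ t ∈ Set.Icc (0 : ℝ) 1, γ t ∈ cell S p

theorem mem_cell_self (S : Set ℍ) (p : ℍ) : p ∈ cell S p := by
  intro q _
  rw [dist_self]; exact dist_nonneg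

/-- The cell of a deep point is small. -/
theorem cell_small (hpath : HasPaths) {S : Set ℍ} {b : ℝ} {N : ℕ} (hN : 0 < N)
    (h : OneEach S b N) {p : ℍ} {r : ℝ} (hr : 2 / N < r) (hpr : Metric.closedBall p r ⊆ bigQ b)
    {z : ℍ} (hz : z ∈ cell S p) : dist z p ≤ 2 / N := by
  by_contra hcon
  push Not at hcon
  obtain ⟨γ, hγc, hγ0, hγ1, hγ⟩ := hpath p z
  set r1 := min (dist z p) r with hr1
  have hr1' : 2 / (N : ℝ) < r1 := lt_min hcon hr
  have hN' : (0 : ℝ) < N := by exact_mod_cast hN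
  have hf : ContinuousOn (fun t => dist (γ t) p) (Set.Icc 0 1) :=
    (continuous_id.dist (continuous_const (y := p))).comp_continuousOn hγc
  have hiv := intermediate_value_Icc (zero_le_one' ℝ) hf
  have hmem : r1 ∈ Set.Icc (dist (γ 0) p) (dist (γ 1) p) := by
    rw [hγ0, hγ1, dist_self]
    exact ⟨(lt_trans (by positivity) hr1').le, min_le_left _ _⟩
  obtain ⟨t, ht, htr⟩ := hiv hmem
  have h1 : γ t ∈ cell S p := hγ S p (mem_cell_self S p) hz t ht
  have h2 : γ t ∈ bigQ b := hpr (by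
    rw [Metric.mem_closedBall]
    simp only at htr
    rw [htr]; exact min_le_right _ _)
  have h3 := dist_cell_le hN h h2 h1
  simp only at htr
  rw [htr] at h3
  linarith

theorem adj_dist (hpath : HasPaths) {S : Set ℍ} {b : ℝ} {N : ℕ} (hN : 0 < N)
    (h : OneEach S b N) {p q : S} {r : ℝ} (hr : 2 / N < r)
    (hpr : Metric.closedBall (p : ℍ) r ⊆ bigQ b) (hpq : (vor S).Adj p q) :
    dist (p : ℍ) q ≤ 4 / N := by
  have hne : (cell S (p : ℍ) ∩ cell S (q : ℍ)).Nonempty := by
    by_contra hcon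
    rw [Set.not_nonempty_iff_eq_empty] at hcon
    have := hpq.2
    rw [hcon, measure_empty] at this
    exact lt_irrefl _ this
  obtain ⟨z, hz1, hz2⟩ := hne
  have h1 := cell_small hpath hN h hr hpr hz1
  have h2 := hz2 p p.2
  have h3 := dist_triangle (p : ℍ) z q
  rw [dist_comm (p : ℍ) z] at h3
  have : (4 : ℝ) / N = 2 / N + 2 / N := by ring
  linarith

theorem walk_dist (hpath : HasPaths) {S : Set ℍ} {b : ℝ} {N : ℕ} (hN : 0 < N)
    (h : OneEach S b N) {p q : S} (w : (vor S).Walk p q) : ∀ (r : ℝ), 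
    Metric.closedBall (p : ℍ) r ⊆ bigQ b → 4 / N * ((w.length : ℝ) + 1) ≤ r →
    dist (p : ℍ) q ≤ 4 / N * (w.length : ℝ) := by
  have hN' : (0 : ℝ) < N := by exact_mod_cast hN
  induction w with
  | nil =>
    intro r _ _
    simp
  | @cons u v x huv tl ih =>
    intro r hr hl
    rw [SimpleGraph.Walk.length_cons] at hl ⊢
    push_cast at hl ⊢
    have h4 : (0 : ℝ) < 4 / N := by positivity
    have h2 : (2 : ℝ) / N < 4 / N := by
      apply div_lt_div_of_pos_right _ hN'; norm_num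
    have hlen : (0 : ℝ) ≤ tl.length := by positivity
    have hr4 : 2 / (N : ℝ) < r := by nlinarith
    have h1 := adj_dist hpath hN h hr4 hr huv
    have h3 := ih (r - 4 / N) (by
      refine Set.Subset.trans ?_ hr
      intro y hy
      rw [Metric.mem_closedBall] at hy ⊢
      have := dist_triangle y (v : ℍ) u
      rw [dist_comm (v : ℍ) u] at this
      linarith) (by nlinarith)
    have := dist_triangle (u : ℍ) v x
    nlinarith

theorem graph_dist_lt (hpath : HasPaths) {S : Set ℍ} (hconn : (vor S).Connected) {b : ℝ} {N : ℕ}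
    (hN : 0 < N) (h : OneEach S b N) {p q : S} {r : ℝ}
    (hpr : Metric.closedBall (p : ℍ) r ⊆ bigQ b)
    (hl : 4 / N * (((vor S).dist p q : ℝ) + 1) ≤ r) :
    dist (p : ℍ) q ≤ 4 / N * ((vor S).dist p q : ℝ) := by
  obtain ⟨w, hw⟩ := hconn.exists_walk_length_eq_dist p q
  rw [← hw] at hl ⊢
  exact walk_dist hpath hN h w r hpr hl

/-- deep points -/
theorem ball_sub_bigQ {b : ℝ} {p : ℍ} (h1 : b + 1 / 8 ≤ p.re) (h2 : p.re ≤ b + 7 / 8)
    (h3 : 9 / 8 ≤ p.im) (h4 : p.im ≤ 15 / 8) : Metric.closedBall (p : ℍ) (1 / 32) ⊆ bigQ b := by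
  intro z hz
  rw [Metric.mem_closedBall] at hz
  have h5 := dist_coe_le z p
  have h6 : Real.exp (dist z p) - 1 ≤ 1 / 16 := by
    have := Real.abs_exp_sub_one_sub_id_le (x := dist z p) (by
      rw [abs_of_nonneg dist_nonneg]; linarith)
    rw [abs_le] at this
    have h7 : (dist z p) ^ 2 ≤ 1 / 32 * (1 / 32) := by
      nlinarith [dist_nonneg (x := z) (y := p)]
    linarith
  have h8 : dist (z : ℂ) p ≤ 15 / 128 := by
    refine h5.trans ?_
    have h9 : 0 ≤ Real.exp (dist z p) - 1 := by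
      have := Real.add_one_le_exp (dist z p)
      have := dist_nonneg (x := z) (y := p)
      linarith
    nlinarith [p.im_pos]
  rw [Complex.dist_eq] at h8
  have hx := (Complex.abs_re_le_norm ((z : ℂ) - p)).trans h8
  have hy := (Complex.abs_im_le_norm ((z : ℂ) - p)).trans h8
  simp only [Complex.sub_re, Complex.sub_im, coe_re, coe_im, abs_le] at hx hy
  exact ⟨by linarith [hx.1], by linarith [hx.2], by linarith [hy.1], by linarith [hy.2]⟩

end Pool.Agent.TH331.HV
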