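import Pool.Agent.TH331.HV.Geo2

set_option autoImplicit false

open UpperHalfPlane MeasureTheory
open scoped UpperHalfPlane MeasureTheory

namespace Pool.Agent.TH331.HV

/-- local connectivity of the Voronoi graph (job HV-4) -/
def LocalWalk (S : Set ℍ) : Prop := ∀ (W : Set ℂ), IsOpen W → Convex ℝ W → (∀ z ∈ W, 0 < z.im) →
  ∀ p q : S, ((p : ℍ) : ℂ) ∈ W → ((q : ℍ) : ℂ) ∈ W →
    ∃ w : (vor S).Walk p q, ∀ u ∈ w.support, ∃ z : ℍ, (z : ℂ) ∈ W ∧ z ∈ cell S (u : ℍ)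

theorem idx_inj {S : Set ℍ} {b : ℝ} {N : ℕ} (hN : 0 < N) (h : OneEach S b N) {z w : ℍ}
    (hz : z ∈ S) (hw : w ∈ S) (hzQ : z ∈ bigQ b) (hwQ : w ∈ bigQ b)
    (he : idx b N z = idx b N w) : z = w := by
  obtain ⟨h1, h2, h3⟩ := mem_box_idx hN hzQ
  obtain ⟨h1', h2', h3'⟩ := mem_box_idx hN hwQ
  rw [← he] at h3'
  have h4 := h _ h1 _ h2
  obtain ⟨s, hs⟩ := Set.ncard_eq_one.mp h4
  have e1 : z ∈ ({s} : Set ℍ) := by rw [← hs]; exact ⟨hz, h3⟩
  have e2 : w ∈ ({s} : Set ℍ) := by rw [← hs]; exact ⟨hw, h3'⟩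
  rw [Set.mem_singleton_iff] at e1 e2
  rw [e1, e2]

theorem card_Icc_floor {A B : ℝ} (hAB : A ≤ B) (hB : 0 ≤ B) :
    ((Finset.Icc ⌊A⌋₊ ⌊B⌋₊).card : ℝ) ≤ B - A + 2 := by
  rw [Nat.card_Icc]
  have h1 : ⌊A⌋₊ ≤ ⌊B⌋₊ := Nat.floor_mono hAB
  have h2 := Nat.floor_le hB
  have h3 := Nat.lt_floor_add_one A
  rw [Nat.cast_sub (by omega)]
  push_cast
  linarith

theorem card_le {S : Set ℍ} {b : ℝ} {N : ℕ} (hN : 0 < N) (h : OneEach S b N) {x0 y0 r : ℝ}
    (T : Finset S) (hT : ∀ u ∈ T, (u : ℍ) ∈ bigQ b ∧ |(u : ℍ).re - x0| ≤ r ∧ |(u : ℍ).im - y0| ≤ r) :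
    (T.card : ℝ) ≤ (2 * r * N + 2) ^ 2 := by
  have hN' : (0 : ℝ) < N := by exact_mod_cast hN
  rcases T.eq_empty_or_nonempty with he | ⟨u0, hu0⟩
  · rw [he]; simp only [Finset.card_empty, Nat.cast_zero]; positivity
  obtain ⟨hq, hx, hy⟩ := hT u0 hu0
  have hr : 0 ≤ r := (abs_nonneg _).trans hx
  rw [abs_le] at hx hy
  classical
  set I := Finset.Icc ⌊N * (x0 - r - b)⌋₊ ⌊N * (x0 + r - b)⌋₊ with hI
  set J := Finset.Icc ⌊N * (y0 - r - 1)⌋₊ ⌊N * (y0 + r - 1)⌋₊ with hJ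
  have hcardI : (I.card : ℝ) ≤ 2 * r * N + 2 := by
    have := card_Icc_floor (A := N * (x0 - r - b)) (B := N * (x0 + r - b)) (by nlinarith)
      (by have := hq.1; apply mul_nonneg hN'.le; linarith)
    refine this.trans (le_of_eq ?_)
    ring
  have hcardJ : (J.card : ℝ) ≤ 2 * r * N + 2 := by
    have := card_Icc_floor (A := N * (y0 - r - 1)) (B := N * (y0 + r - 1)) (by nlinarith)
      (by have := hq.2.2.1; apply mul_nonneg hN'.le; linarith)
    refine this.trans (le_of_eq ?_)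
    ring
  have hle : T.card ≤ (I ×ˢ J).card := by
    apply Finset.card_le_card_of_injOn (fun u : S => idx b N (u : ℍ))
    · intro u hu
      obtain ⟨hq', hx', hy'⟩ := hT u hu
      rw [abs_le] at hx' hy'
      simp only [Finset.coe_product, Set.mem_prod, hI, hJ, Finset.coe_Icc, Set.mem_Icc, idx]
      refine ⟨⟨Nat.floor_mono ?_, Nat.floor_mono ?_⟩, ⟨Nat.floor_mono ?_, Nat.floor_mono ?_⟩⟩ <;>
        apply mul_le_mul_of_nonneg_left _ hN'.le <;> linarith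
    · intro u hu v hv huv
      exact Subtype.ext (idx_inj hN h u.2 v.2 (hT u hu).1 (hT v hv).1 huv)
  rw [Finset.card_product] at hle
  calc (T.card : ℝ) ≤ ((I.card * J.card : ℕ) : ℝ) := by exact_mod_cast hle
    _ = (I.card : ℝ) * J.card := by push_cast; ring
    _ ≤ (2 * r * N + 2) * (2 * r * N + 2) := by
        apply mul_le_mul hcardI hcardJ (by positivity)
        positivity
    _ = _ := by ring

/-- shortening a walk whose vertices lie in a box -/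
theorem short_walk {S : Set ℍ} {b : ℝ} {N : ℕ} (hN : 0 < N) (h : OneEach S b N) {x0 y0 r : ℝ}
    {p q : S} (w : (vor S).Walk p q)
    (hw : ∀ u ∈ w.support, (u : ℍ) ∈ bigQ b ∧ |(u : ℍ).re - x0| ≤ r ∧ |(u : ℍ).im - y0| ≤ r) :
    ∃ w' : (vor S).Walk p q, (∀ u ∈ w'.support, u ∈ w.support) ∧
      (w'.length : ℝ) ≤ (2 * r * N + 2) ^ 2 := by
  classical
  refine ⟨w.bypass, fun u hu => w.support_bypass_subset_support hu, ?_⟩
  have h1 := card_le hN h (x0 := x0) (y0 := y0) (r := r) w.bypass.support.toFinset (by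
    intro u hu
    rw [List.mem_toFinset] at hu
    exact hw u (w.support_bypass_subset_support hu))
  rw [List.toFinset_card_of_nodup w.bypass_isPath.support_nodup,
    SimpleGraph.Walk.length_support] at h1
  push_cast at h1
  linarith

/-- Consequence of local connectivity for convex open sets inside the big square. -/
theorem walk_in {S : Set ℍ} {b : ℝ} {N : ℕ} (hN : 2 ≤ N) (h : OneEach S b N) (hloc : LocalWalk S)
    (W : Set ℂ) (hW : IsOpen W) (hWc : Convex ℝ W)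
    (hWQ : ∀ z ∈ W, b ≤ z.re ∧ z.re < b + 1 ∧ 1 ≤ z.im ∧ z.im < 2) {p q : S}
    (hp : ((p : ℍ) : ℂ) ∈ W) (hq : ((q : ℍ) : ℂ) ∈ W) :
    ∃ w : (vor S).Walk p q, ∀ u ∈ w.support, ∃ z ∈ W, dist z ((u : ℍ) : ℂ) ≤ 8 / N := by
  obtain ⟨w, hw⟩ := hloc W hW hWc (fun z hz => by linarith [(hWQ z hz).2.2.1]) p q hp hq
  refine ⟨w, fun u hu => ?_⟩
  obtain ⟨z, hz, hzu⟩ := hw u hu
  refine ⟨z, hz, coe_dist_cell_le hN h ?_ hzu⟩
  have := hWQ _ hz
  simpa [bigQ] using this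

theorem coords_of_dist {z w : ℂ} {r : ℝ} (h : dist z w ≤ r) :
    |z.re - w.re| ≤ r ∧ |z.im - w.im| ≤ r := by
  rw [Complex.dist_eq] at h
  exact ⟨by simpa using (Complex.abs_re_le_norm (z - w)).trans h,
    by simpa using (Complex.abs_im_le_norm (z - w)).trans h⟩

/-- Upper bound for the graph distance of two close points. -/
theorem dist_le_close {S : Set ℍ} {b : ℝ} {N : ℕ} (hN : 2 ≤ N) (h : OneEach S b N)
    (hloc : LocalWalk S) {a : ℂ} {r : ℝ} (ha1 : b + 1 / 4 ≤ a.re) (ha2 : a.re ≤ b + 3 / 4)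
    (ha3 : 5 / 4 ≤ a.im) (ha4 : a.im ≤ 7 / 4) (hr : r + 8 / N ≤ 1 / 8) {p q : S}
    (hp : dist ((p : ℍ) : ℂ) a < r) (hq : dist ((q : ℍ) : ℂ) a < r) :
    ((vor S).dist p q : ℝ) ≤ (2 * (r + 8 / N) * N + 2) ^ 2 := by
  have hN' : (0 : ℝ) < N := by exact_mod_cast (by omega : 0 < N)
  have h8 : (0 : ℝ) < 8 / N := by positivity
  obtain ⟨w, hw⟩ := walk_in hN h hloc (Metric.ball a r) Metric.isOpen_ball (convex_ball a r) (by
    intro z hz
    rw [Metric.mem_ball] at hz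
    obtain ⟨h1, h2⟩ := coords_of_dist hz.le
    rw [abs_le] at h1 h2
    exact ⟨by linarith, by linarith, by linarith, by linarith⟩) (Metric.mem_ball.mpr hp)
    (Metric.mem_ball.mpr hq)
  have hw2 : ∀ u ∈ w.support, (u : ℍ) ∈ bigQ b ∧ |(u : ℍ).re - a.re| ≤ r + 8 / N ∧
      |(u : ℍ).im - a.im| ≤ r + 8 / N := by
    intro u hu
    obtain ⟨z, hz, hzu⟩ := hw u hu
    rw [Metric.mem_ball] at hz
    have h3 : dist ((u : ℍ) : ℂ) a ≤ r + 8 / N := by
      have := dist_triangle ((u : ℍ) : ℂ) z a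
      rw [dist_comm ((u : ℍ) : ℂ) z] at this
      linarith
    obtain ⟨h1, h2⟩ := coords_of_dist h3
    simp only [coe_re, coe_im] at h1 h2
    refine ⟨?_, h1, h2⟩
    rw [abs_le] at h1 h2
    exact ⟨by linarith, by linarith, by linarith, by linarith⟩
  obtain ⟨w', -, hl⟩ := short_walk (by omega) h w hw2
  have : ((vor S).dist p q : ℝ) ≤ w'.length := by exact_mod_cast SimpleGraph.dist_le w'
  linarith

end Pool.Agent.TH331.HV
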