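import Pool.Agent.TH331.HV.Geo3

set_option autoImplicit false

open UpperHalfPlane MeasureTheory
open scoped UpperHalfPlane MeasureTheory

namespace Pool.Agent.TH331.HV

/-- a walk along a segment -/
theorem segment_walk {S : Set ℍ} {b : ℝ} {N : ℕ} (hN : 2 ≤ N) (h : OneEach S b N)
    (hloc : LocalWalk S) (hNb : (12 : ℝ) / N ≤ 1 / 8) {z1 z2 : ℂ}
    (h1 : b + 1 / 4 ≤ z1.re ∧ z1.re ≤ b + 3 / 4 ∧ 5 / 4 ≤ z1.im ∧ z1.im ≤ 7 / 4)
    (h2 : b + 1 / 4 ≤ z2.re ∧ z2.re ≤ b + 3 / 4 ∧ 5 / 4 ≤ z2.im ∧ z2.im ≤ 7 / 4) {p q : S}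
    (hp : dist ((p : ℍ) : ℂ) z1 ≤ 2 / N) (hq : dist ((q : ℍ) : ℂ) z2 ≤ 2 / N) :
    ∃ w : (vor S).Walk p q, ∀ u ∈ w.support, ∃ z ∈ segment ℝ z1 z2,
      dist ((u : ℍ) : ℂ) z ≤ 12 / N := by
  have hN' : (0 : ℝ) < N := by exact_mod_cast (by omega : 0 < N)
  have h4 : (0 : ℝ) < 4 / N := by positivity
  have h24 : (2 : ℝ) / N < 4 / N := by
    apply div_lt_div_of_pos_right _ hN'; norm_num
  have hseg : ∀ y ∈ segment ℝ z1 z2, b + 1 / 4 ≤ y.re ∧ y.re ≤ b + 3 / 4 ∧ 5 / 4 ≤ y.im ∧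
      y.im ≤ 7 / 4 := by
    rintro y ⟨s, t, hs, ht, hst, rfl⟩
    obtain ⟨a1, a2, a3, a4⟩ := h1
    obtain ⟨b1, b2, b3, b4⟩ := h2
    have hs' : s = 1 - t := by linarith
    subst hs'
    simp only [Complex.add_re, Complex.real_smul, Complex.mul_re, Complex.ofReal_re,
      Complex.ofReal_im, zero_mul, sub_zero, Complex.add_im, Complex.mul_im, add_zero]
    refine ⟨by nlinarith, by nlinarith, by nlinarith, by nlinarith⟩
  have h412 : (4 : ℝ) / N ≤ 12 / N := by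
    apply div_le_div_of_nonneg_right _ hN'.le; norm_num
  obtain ⟨w, hw⟩ := walk_in hN h hloc (Metric.thickening (4 / N) (segment ℝ z1 z2))
    Metric.isOpen_thickening ((convex_segment z1 z2).thickening _) (by
    intro z hz
    rw [Metric.mem_thickening_iff] at hz
    obtain ⟨y, hy, hzy⟩ := hz
    obtain ⟨c1, c2, c3, c4⟩ := hseg y hy
    obtain ⟨d1, d2⟩ := coords_of_dist hzy.le
    rw [abs_le] at d1 d2
    exact ⟨by linarith, by linarith, by linarith, by linarith⟩)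
    (Metric.mem_thickening_iff.mpr ⟨z1, left_mem_segment ℝ z1 z2, by linarith⟩)
    (Metric.mem_thickening_iff.mpr ⟨z2, right_mem_segment ℝ z1 z2, by linarith⟩)
  refine ⟨w, fun u hu => ?_⟩
  obtain ⟨z, hz, hzu⟩ := hw u hu
  rw [Metric.mem_thickening_iff] at hz
  obtain ⟨y, hy, hzy⟩ := hz
  refine ⟨y, hy, ?_⟩
  have := dist_triangle ((u : ℍ) : ℂ) z y
  rw [dist_comm ((u : ℍ) : ℂ) z] at this
  have e : (12 : ℝ) / N = 8 / N + 4 / N := by ring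
  linarith

/-- Existence of a nucleus near a given point. -/
theorem exists_nucleus {S : Set ℍ} {b : ℝ} {N : ℕ} (hN : 0 < N) (h : OneEach S b N) {z : ℂ}
    (h1 : b ≤ z.re ∧ z.re < b + 1 ∧ 1 ≤ z.im ∧ z.im < 2) : ∃ s : S, dist ((s : ℍ) : ℂ) z ≤ 2 / N := by
  have hz : 0 < z.im := by linarith [h1.2.2.1]
  obtain ⟨s, hs, -, -, -, hd, -⟩ := exists_near hN h (z := ⟨z, hz⟩) (by
    exact h1)
  refine ⟨⟨s, hs⟩, ?_⟩
  rw [dist_comm]
  exact hd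

end Pool.Agent.TH331.HV
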