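import Pool.Agent.TH331.HV.NoBox
import Pool.Agent.TH692.FourPoint
import Pool.Agent.TH89.HV3
import Pool.Agent.TH554.J1319

set_option autoImplicit false

open UpperHalfPlane MeasureTheory ProbabilityTheory Filter
open scoped UpperHalfPlane MeasureTheory NNReal

namespace Pool.Agent.TH331.HV

theorem exists_m (K : ℕ) : ∃ m : ℕ, 20000000 * (K * (2 * m + 4) + 1) ^ 2 ≤ 2 ^ m := by
  have h1 : Tendsto (fun m : ℕ => (m : ℝ) ^ 2 * (1 / 2 : ℝ) ^ m) atTop (nhds 0) := by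
    have := tendsto_pow_const_mul_const_pow_of_abs_lt_one 2 (r := (1 / 2 : ℝ)) (by
      rw [abs_of_pos (by norm_num)]; norm_num)
    exact this
  set A : ℝ := 20000000 * (K * 6 + 1) ^ 2 with hA
  have hApos : 0 < A := by positivity
  have h2 : ∀ᶠ m : ℕ in atTop, (m : ℝ) ^ 2 * (1 / 2 : ℝ) ^ m < 1 / A :=
    h1.eventually_lt_const (by positivity)
  obtain ⟨m, hm, hm1⟩ := (h2.and (eventually_ge_atTop 1)).exists
  refine ⟨m, ?_⟩
  have hm1' : (1 : ℝ) ≤ m := by exact_mod_cast hm1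
  have h3 : A * (m : ℝ) ^ 2 ≤ 2 ^ m := by
    have h2m : (0 : ℝ) < 2 ^ m := by positivity
    rw [one_div, inv_pow, ← div_eq_mul_inv, div_lt_div_iff₀ h2m hApos] at hm
    linarith
  have h4 : (20000000 * ((K : ℝ) * (2 * m + 4) + 1) ^ 2) ≤ A * (m : ℝ) ^ 2 := by
    rw [hA, mul_assoc, ← mul_pow]
    apply mul_le_mul_of_nonneg_left _ (by norm_num)
    apply pow_le_pow_left₀ (by positivity)
    have hK : (0 : ℝ) ≤ K := by positivity
    nlinarith
  have h5 := h4.trans h3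
  exact_mod_cast h5

theorem connected {S : Set ℍ} (hS : ∀ A : Set ℍ, Bornology.IsBounded A → (S ∩ A).Finite)
    (hne : S.Nonempty) : (vor S).Connected := by
  have : Nonempty S := hne.to_subtype
  refine ⟨fun p q => ?_⟩
  obtain ⟨w, -⟩ := local_walk (fun S p q a b h1 h2 h3 => Pool.Agent.TH89.HV3.length_pos S p q a b h1 h2 h3)
    Pool.Agent.TH89.HV3.isClosed_cell S hS {z : ℂ | 0 < z.im}
    (isOpen_lt continuous_const Complex.continuous_im) (convex_halfSpace_im_gt 0)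
    (fun z hz => hz) p q (p : ℍ).im_pos (q : ℍ).im_pos
  exact ⟨w⟩

theorem deterministic {S : Set ℍ} (hS : ∀ A : Set ℍ, Bornology.IsBounded A → (S ∩ A).Finite)
    (hbox : ∀ N : ℕ, 0 < N → ∃ b : ℝ, ∀ i < N, ∀ k < N, (S ∩ box b N i k).ncard = 1) :
    S.Nonempty ∧ (vor S).Connected ∧ ∀ (x : S) (δ : ℕ), ¬ ThinAt (vor S) x δ := by
  have hne : S.Nonempty := by
    obtain ⟨b, hb⟩ := hbox 1 one_pos
    have := hb 0 one_pos 0 one_pos
    obtain ⟨s, hs⟩ := Set.ncard_eq_one.mp this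
    have : s ∈ S ∩ box b 1 0 0 := by rw [hs]; exact Set.mem_singleton s
    exact ⟨s, this.1⟩
  have hconn := connected hS hne
  refine ⟨hne, hconn, fun x δ hx => ?_⟩
  have hK : FourPoint (vor S) (100 * δ + 100) := fun a b c d =>
    Pool.Agent.TH692.FourPoint.four_point (vor S) hconn x δ hx a b c d
  obtain ⟨m, hm⟩ := exists_m (100 * δ + 100)
  obtain ⟨b, hb⟩ := hbox (2 ^ m) (by positivity)
  refine no_box (fun a b => Pool.Agent.TH89.HV3.exists_path a b) hconn ?_ _ hK m hm b hb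
  intro W hW hWc hWH p q hp hq
  exact local_walk (fun S p q a b h1 h2 h3 => Pool.Agent.TH89.HV3.length_pos S p q a b h1 h2 h3)
    Pool.Agent.TH89.HV3.isClosed_cell S hS W hW hWc hWH p q hp hq

end Pool.Agent.TH331.HV
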