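import Pool.Agent.TH331.HV.Geo4

set_option autoImplicit false

open UpperHalfPlane MeasureTheory
open scoped UpperHalfPlane MeasureTheory

namespace Pool.Agent.TH331.HV

/-- The four corners of the rhombus. -/
noncomputable def cA (b : ℝ) : ℂ := ⟨b + 1 / 4, 3 / 2⟩
noncomputable def cC (b : ℝ) : ℂ := ⟨b + 3 / 4, 3 / 2⟩
noncomputable def cU (b : ℝ) : ℂ := ⟨b + 1 / 2, 7 / 4⟩
noncomputable def cL (b : ℝ) : ℂ := ⟨b + 1 / 2, 5 / 4⟩

theorem seg_AU (b : ℝ) {y : ℂ} (hy : y ∈ segment ℝ (cA b) (cU b)) :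
    b + 1 / 4 ≤ y.re ∧ y.re ≤ b + 3 / 4 ∧ 5 / 4 ≤ y.im ∧ y.im ≤ 7 / 4 ∧
      dist y (cA b) ≤ 2 * (y.im - 3 / 2) := by
  obtain ⟨s, t, hs, ht, hst, rfl⟩ := hy
  have hs' : s = 1 - t := by linarith
  subst hs'
  have e1 : ((1 - t) • cA b + t • cU b).re = b + 1 / 4 + t / 4 := by
    simp [cA, cU]; ring
  have e2 : ((1 - t) • cA b + t • cU b).im = 3 / 2 + t / 4 := by
    simp [cA, cU]; ring
  refine ⟨by rw [e1]; linarith, by rw [e1]; linarith, by rw [e2]; linarith, by rw [e2]; linarith, ?_⟩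
  rw [Complex.dist_eq]
  refine (Complex.norm_le_abs_re_add_abs_im _).trans ?_
  rw [Complex.sub_re, Complex.sub_im, e1, e2]
  simp only [cA]
  rw [abs_of_nonneg (by linarith), abs_of_nonneg (by linarith)]
  linarith

theorem seg_UC (b : ℝ) {y : ℂ} (hy : y ∈ segment ℝ (cU b) (cC b)) :
    b + 1 / 4 ≤ y.re ∧ y.re ≤ b + 3 / 4 ∧ 5 / 4 ≤ y.im ∧ y.im ≤ 7 / 4 ∧
      dist y (cC b) ≤ 2 * (y.im - 3 / 2) := by
  obtain ⟨s, t, hs, ht, hst, rfl⟩ := hy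
  have hs' : s = 1 - t := by linarith
  subst hs'
  have e1 : ((1 - t) • cU b + t • cC b).re = b + 1 / 2 + t / 4 := by
    simp [cC, cU]; ring
  have e2 : ((1 - t) • cU b + t • cC b).im = 7 / 4 - t / 4 := by
    simp [cC, cU]; ring
  refine ⟨by rw [e1]; linarith, by rw [e1]; linarith, by rw [e2]; linarith, by rw [e2]; linarith, ?_⟩
  rw [Complex.dist_eq]
  refine (Complex.norm_le_abs_re_add_abs_im _).trans ?_
  rw [Complex.sub_re, Complex.sub_im, e1, e2]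
  simp only [cC]
  rw [abs_of_nonpos (by linarith), abs_of_nonneg (by linarith)]
  linarith

theorem seg_AL (b : ℝ) {y : ℂ} (hy : y ∈ segment ℝ (cA b) (cL b)) :
    b + 1 / 4 ≤ y.re ∧ y.re ≤ b + 3 / 4 ∧ 5 / 4 ≤ y.im ∧ y.im ≤ 3 / 2 := by
  obtain ⟨s, t, hs, ht, hst, rfl⟩ := hy
  have hs' : s = 1 - t := by linarith
  subst hs'
  have e1 : ((1 - t) • cA b + t • cL b).re = b + 1 / 4 + t / 4 := by
    simp [cA, cL]; ring
  have e2 : ((1 - t) • cA b + t • cL b).im = 3 / 2 - t / 4 := by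
    simp [cA, cL]; ring
  refine ⟨by rw [e1]; linarith, by rw [e1]; linarith, by rw [e2]; linarith, by rw [e2]; linarith⟩

theorem seg_LC (b : ℝ) {y : ℂ} (hy : y ∈ segment ℝ (cL b) (cC b)) :
    b + 1 / 4 ≤ y.re ∧ y.re ≤ b + 3 / 4 ∧ 5 / 4 ≤ y.im ∧ y.im ≤ 3 / 2 := by
  obtain ⟨s, t, hs, ht, hst, rfl⟩ := hy
  have hs' : s = 1 - t := by linarith
  subst hs'
  have e1 : ((1 - t) • cL b + t • cC b).re = b + 1 / 2 + t / 4 := by
    simp [cC, cL]; ring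
  have e2 : ((1 - t) • cL b + t • cC b).im = 5 / 4 + t / 4 := by
    simp [cC, cL]; ring
  refine ⟨by rw [e1]; linarith, by rw [e1]; linarith, by rw [e2]; linarith, by rw [e2]; linarith⟩

theorem exp_sub_one_le {x r : ℝ} (hx0 : 0 ≤ x) (hx : x ≤ r) (hr : r ≤ 1) :
    Real.exp x - 1 ≤ 2 * r := by
  have h1 := Real.abs_exp_sub_one_sub_id_le (x := x) (by
    rw [abs_of_nonneg hx0]; linarith)
  rw [abs_le] at h1
  have h2 : x ^ 2 ≤ x := by nlinarith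
  linarith

theorem coe_dist_le_of_dist {b r : ℝ} {z w : ℍ} (hw : w ∈ bigQ b) (h : dist z w ≤ r) (hr : r ≤ 1) :
    dist (z : ℂ) w ≤ 4 * r := by
  have h1 := dist_coe_le z w
  have h2 := exp_sub_one_le dist_nonneg h hr
  have h3 : 0 ≤ Real.exp (dist z w) - 1 := by
    have := Real.add_one_le_exp (dist z w)
    have := dist_nonneg (x := z) (y := w)
    linarith
  have h4 := hw.2.2.2
  have h5 := w.im_pos
  nlinarith

theorem small_aux {N κ d : ℝ} (hN : 0 < N) (hκ : 1 ≤ κ) (hbig : 20000000 * κ ^ 2 ≤ N)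
    (hd : d ≤ 83234 * κ ^ 2) : 4 / N * (d + 1) ≤ 1 / 32 := by
  have hκ2 : (1 : ℝ) ≤ κ ^ 2 := by nlinarith
  rw [div_mul_eq_mul_div, div_le_div_iff₀ hN (by norm_num)]
  linarith

theorem no_box (hpath : HasPaths) {S : Set ℍ} (hconn : (vor S).Connected) (hloc : LocalWalk S)
    (K : ℕ) (hK : FourPoint (vor S) K) (m : ℕ)
    (hbig : 20000000 * (K * (2 * m + 4) + 1) ^ 2 ≤ 2 ^ m) (b : ℝ) (h : OneEach S b (2 ^ m)) :
    False := by
  set κ : ℕ := K * (2 * m + 4) + 1 with hκ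
  set N : ℕ := 2 ^ m with hNdef
  have hκ1 : 1 ≤ κ := by omega
  have hNbig : 20000000 ≤ N := by
    calc 20000000 ≤ 20000000 * κ ^ 2 := Nat.le_mul_of_pos_right _ (by positivity)
      _ ≤ N := hbig
  have hN0 : 0 < N := by omega
  have hN2 : 2 ≤ N := by omega
  have hNr : (0 : ℝ) < N := by exact_mod_cast hN0
  have hκr : (1 : ℝ) ≤ κ := by exact_mod_cast hκ1
  have hbigr : 20000000 * (κ : ℝ) ^ 2 ≤ N := by exact_mod_cast hbig
  -- the small quantity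
  set e : ℝ := (κ : ℝ) / N with he
  have he0 : 0 < e := by positivity
  have he1 : e ≤ 1 / 20000000 := by
    rw [he, div_le_div_iff₀ hNr (by norm_num)]
    have hκ2 : (κ : ℝ) ≤ (κ : ℝ) ^ 2 := le_self_pow₀ hκr (by norm_num)
    linarith
  have h1N : 1 / (N : ℝ) ≤ e := by
    rw [he]; exact div_le_div_of_nonneg_right hκr hNr.le
  have h2N : (2 : ℝ) / N ≤ 2 * e := by
    have : (2 : ℝ) / N = 2 * (1 / N) := by ring
    linarith
  have h12N : (12 : ℝ) / N ≤ 12 * e := by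
    have : (12 : ℝ) / N = 12 * (1 / N) := by ring
    linarith
  have h8N : (8 : ℝ) / N ≤ 8 * e := by
    have : (8 : ℝ) / N = 8 * (1 / N) := by ring
    linarith
  have h12 : (12 : ℝ) / N ≤ 1 / 8 := by linarith
  -- nuclei
  obtain ⟨A, hA⟩ := exists_nucleus hN0 h (z := cA b) ⟨by simp [cA], by simp [cA]; norm_num,
    by simp [cA]; norm_num, by simp [cA]; norm_num⟩
  obtain ⟨C, hC⟩ := exists_nucleus hN0 h (z := cC b) ⟨by simp [cC]; norm_num, by simp [cC]; norm_num,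
    by simp [cC]; norm_num, by simp [cC]; norm_num⟩
  obtain ⟨U, hU⟩ := exists_nucleus hN0 h (z := cU b) ⟨by simp [cU], by simp [cU]; norm_num,
    by simp [cU]; norm_num, by simp [cU]; norm_num⟩
  obtain ⟨L, hL⟩ := exists_nucleus hN0 h (z := cL b) ⟨by simp [cL], by simp [cL]; norm_num,
    by simp [cL]; norm_num, by simp [cL]; norm_num⟩
  have bA : b + 1 / 4 ≤ (cA b).re ∧ (cA b).re ≤ b + 3 / 4 ∧ 5 / 4 ≤ (cA b).im ∧ (cA b).im ≤ 7 / 4 := by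
    refine ⟨?_, ?_, ?_, ?_⟩ <;> simp only [cA] <;> linarith
  have bC : b + 1 / 4 ≤ (cC b).re ∧ (cC b).re ≤ b + 3 / 4 ∧ 5 / 4 ≤ (cC b).im ∧ (cC b).im ≤ 7 / 4 := by
    refine ⟨?_, ?_, ?_, ?_⟩ <;> simp only [cC] <;> linarith
  have bU : b + 1 / 4 ≤ (cU b).re ∧ (cU b).re ≤ b + 3 / 4 ∧ 5 / 4 ≤ (cU b).im ∧ (cU b).im ≤ 7 / 4 := by
    refine ⟨?_, ?_, ?_, ?_⟩ <;> simp only [cU] <;> linarith
  have bL : b + 1 / 4 ≤ (cL b).re ∧ (cL b).re ≤ b + 3 / 4 ∧ 5 / 4 ≤ (cL b).im ∧ (cL b).im ≤ 7 / 4 := by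
    refine ⟨?_, ?_, ?_, ?_⟩ <;> simp only [cL] <;> linarith
  -- the two walks
  obtain ⟨wAU, hAU⟩ := segment_walk hN2 h hloc h12 bA bU hA hU
  obtain ⟨wUC, hUC⟩ := segment_walk hN2 h hloc h12 bU bC hU hC
  obtain ⟨wAL, hAL⟩ := segment_walk hN2 h hloc h12 bA bL hA hL
  obtain ⟨wLC, hLC⟩ := segment_walk hN2 h hloc h12 bL bC hL hC
  have top : ∀ u ∈ (wAU.append wUC).support, ∃ z : ℂ, dist ((u : ℍ) : ℂ) z ≤ 12 / N ∧
      (b + 1 / 4 ≤ z.re ∧ z.re ≤ b + 3 / 4 ∧ 5 / 4 ≤ z.im ∧ z.im ≤ 7 / 4) ∧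
      (dist z (cA b) ≤ 2 * (z.im - 3 / 2) ∨ dist z (cC b) ≤ 2 * (z.im - 3 / 2)) := by
    intro u hu
    rw [SimpleGraph.Walk.mem_support_append_iff] at hu
    rcases hu with hu | hu
    · obtain ⟨z, hz, hd⟩ := hAU u hu
      obtain ⟨c1, c2, c3, c4, c5⟩ := seg_AU b hz
      exact ⟨z, hd, ⟨c1, c2, c3, c4⟩, Or.inl c5⟩
    · obtain ⟨z, hz, hd⟩ := hUC u hu
      obtain ⟨c1, c2, c3, c4, c5⟩ := seg_UC b hz
      exact ⟨z, hd, ⟨c1, c2, c3, c4⟩, Or.inr c5⟩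
  have bot : ∀ u ∈ (wAL.append wLC).support, ∃ z : ℂ, dist ((u : ℍ) : ℂ) z ≤ 12 / N ∧
      (b + 1 / 4 ≤ z.re ∧ z.re ≤ b + 3 / 4 ∧ 5 / 4 ≤ z.im ∧ z.im ≤ 3 / 2) := by
    intro u hu
    rw [SimpleGraph.Walk.mem_support_append_iff] at hu
    rcases hu with hu | hu
    · obtain ⟨z, hz, hd⟩ := hAL u hu
      exact ⟨z, hd, seg_AL b hz⟩
    · obtain ⟨z, hz, hd⟩ := hLC u hu
      exact ⟨z, hd, seg_LC b hz⟩
  -- vertices near the rhombus are deep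
  have deep : ∀ (u : S) (z : ℂ), dist ((u : ℍ) : ℂ) z ≤ 12 / N →
      (b + 1 / 4 ≤ z.re ∧ z.re ≤ b + 3 / 4 ∧ 5 / 4 ≤ z.im ∧ z.im ≤ 7 / 4) →
      b + 1 / 8 ≤ (u : ℍ).re ∧ (u : ℍ).re ≤ b + 7 / 8 ∧ 9 / 8 ≤ (u : ℍ).im ∧ (u : ℍ).im ≤ 15 / 8 := by
    intro u z hd hz
    obtain ⟨h1, h2⟩ := coords_of_dist hd
    simp only [coe_re, coe_im] at h1 h2
    rw [abs_le] at h1 h2
    exact ⟨by linarith, by linarith, by linarith, by linarith⟩
  have inQ : ∀ u : S, (b + 1 / 8 ≤ (u : ℍ).re ∧ (u : ℍ).re ≤ b + 7 / 8 ∧ 9 / 8 ≤ (u : ℍ).im ∧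
      (u : ℍ).im ≤ 15 / 8) → (u : ℍ) ∈ bigQ b ∧ |(u : ℍ).re - (b + 1 / 2)| ≤ 1 ∧
      |(u : ℍ).im - 3 / 2| ≤ 1 := by
    intro u ⟨c1, c2, c3, c4⟩
    exact ⟨⟨by linarith, by linarith, by linarith, by linarith⟩,
      abs_le.mpr ⟨by linarith, by linarith⟩, abs_le.mpr ⟨by linarith, by linarith⟩⟩
  obtain ⟨w1, hw1, hl1⟩ := short_walk hN0 h (x0 := b + 1 / 2) (y0 := 3 / 2) (r := 1)
    (wAU.append wUC) (by
      intro u hu
      obtain ⟨z, hd, hz, -⟩ := top u hu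
      exact inQ u (deep u z hd hz))
  obtain ⟨w2, hw2, hl2⟩ := short_walk hN0 h (x0 := b + 1 / 2) (y0 := 3 / 2) (r := 1)
    (wAL.append wLC) (by
      intro u hu
      obtain ⟨z, hd, hz⟩ := bot u hu
      exact inQ u (deep u z hd ⟨hz.1, hz.2.1, hz.2.2.1, by linarith [hz.2.2.2]⟩))
  have hlen : ∀ n : ℕ, (n : ℝ) ≤ (2 * 1 * (N : ℝ) + 2) ^ 2 → n ≤ 2 ^ (2 * m + 4) := by
    intro n hn
    have h1 : (2 : ℝ) ^ (2 * m + 4) = (4 * (N : ℝ)) ^ 2 := by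
      rw [hNdef]; push_cast
      rw [mul_pow, ← pow_mul, pow_add]
      ring
    have h2 : (n : ℝ) ≤ 2 ^ (2 * m + 4) := by
      rw [h1]
      refine hn.trans ?_
      have : (2 : ℝ) ≤ N := by exact_mod_cast hN2
      apply pow_le_pow_left₀ (by positivity)
      linarith
    exact_mod_cast h2
  -- the middle of a geodesic
  obtain ⟨w, hwAC, hm1, hm2⟩ := exists_mid (vor S) hconn A C
  obtain ⟨u1, hu1, hd1⟩ := chain (vor S) hconn K hK w (2 * m + 4) A C w1 (hlen _ hl1) hwAC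
  obtain ⟨u2, hu2, hd2⟩ := chain (vor S) hconn K hK w (2 * m + 4) A C w2 (hlen _ hl2) hwAC
  rw [← hκ] at hd1 hd2
  have h12d : (vor S).dist u1 u2 ≤ κ := by
    have := hconn.dist_triangle (u := u1) (v := w) (w := u2)
    rw [SimpleGraph.dist_comm (u := u1) (v := w)] at this
    omega
  obtain ⟨z1, hz1, hz1b, hz1c⟩ := top u1 (hw1 u1 hu1)
  obtain ⟨z2, hz2, hz2b⟩ := bot u2 (hw2 u2 hu2)
  have dp1 := deep u1 z1 hz1 hz1b
  have dp2 := deep u2 z2 hz2 ⟨hz2b.1, hz2b.2.1, hz2b.2.2.1, by linarith [hz2b.2.2.2]⟩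
  have hκN : 4 / (N : ℝ) * κ = 4 * e := by rw [he]; ring
  have h4N : 4 / (N : ℝ) ≤ 4 * e := by
    have : (4 : ℝ) / N = 4 * (1 / N) := by ring
    linarith
  have hH : dist (u1 : ℍ) u2 ≤ 4 * e := by
    have h1 : ((vor S).dist u1 u2 : ℝ) ≤ κ := by exact_mod_cast h12d
    have h4 : (0 : ℝ) ≤ 4 / N := by positivity
    have := graph_dist_lt hpath hconn hN0 h (p := u1) (q := u2) (r := 1 / 32)
      (ball_sub_bigQ dp1.1 dp1.2.1 dp1.2.2.1 dp1.2.2.2) (by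
        have := mul_le_mul_of_nonneg_left h1 h4
        rw [mul_add, mul_one]
        linarith)
    have h5 := mul_le_mul_of_nonneg_left h1 h4
    linarith
  have hE : dist ((u1 : ℍ) : ℂ) u2 ≤ 16 * e := by
    have := coe_dist_le_of_dist (inQ u2 dp2).1 hH (by linarith)
    linarith
  have h_im : z1.im - 3 / 2 ≤ 40 * e := by
    have h1 : dist z1 z2 ≤ 40 * e := by
      have a1 := dist_triangle z1 ((u1 : ℍ) : ℂ) z2
      have a2 := dist_triangle ((u1 : ℍ) : ℂ) ((u2 : ℍ) : ℂ) z2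
      rw [dist_comm z1 ((u1 : ℍ) : ℂ)] at a1
      linarith
    have h2 := (coords_of_dist h1).2
    rw [abs_le] at h2
    linarith [hz2b.2.2.2]
  have hlow : ∀ (B : S) (c : ℂ), dist ((B : ℍ) : ℂ) c ≤ 2 / N → dist z1 c ≤ 2 * (z1.im - 3 / 2) →
      (b + 1 / 4 ≤ c.re ∧ c.re ≤ b + 3 / 4 ∧ 5 / 4 ≤ c.im ∧ c.im ≤ 7 / 4) →
      ((vor S).dist u1 B : ℝ) ≤ 41616 * (κ : ℝ) ^ 2 := by
    intro B c hB hc hcb
    have h1 : dist ((u1 : ℍ) : ℂ) c < 93 * e := by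
      have := dist_triangle ((u1 : ℍ) : ℂ) z1 c
      linarith
    have h2 := dist_le_close hN2 h hloc (a := c) (r := 93 * e) (p := u1) (q := B) hcb.1 hcb.2.1 hcb.2.2.1 hcb.2.2.2
      (by linarith) h1 (by linarith)
    refine h2.trans ?_
    have h3 : 2 * (93 * e + 8 / (N : ℝ)) * N + 2 = 186 * κ + 18 := by
      rw [he]; field_simp; ring
    rw [h3]
    have h4 : 186 * (κ : ℝ) + 18 ≤ 204 * κ := by linarith
    calc (186 * (κ : ℝ) + 18) ^ 2 ≤ (204 * (κ : ℝ)) ^ 2 := pow_le_pow_left₀ (by positivity) h4 2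
      _ = _ := by ring
  -- upper bound for the distance between A and C
  have hAC : ((vor S).dist A C : ℝ) ≤ 83234 * (κ : ℝ) ^ 2 := by
    have hκ2 : (κ : ℝ) ≤ (κ : ℝ) ^ 2 := le_self_pow₀ hκr (by norm_num)
    have hd1' : 2 * ((vor S).dist w u1 : ℝ) ≤ κ := by exact_mod_cast hd1
    rcases hz1c with hc | hc
    · have h1 := hlow A (cA b) hA hc bA
      have h2 : ((vor S).dist w A : ℝ) ≤ (vor S).dist w u1 + (vor S).dist u1 A := by
        exact_mod_cast hconn.dist_triangle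
      have h3 : ((vor S).dist A C : ℝ) ≤ 2 * (vor S).dist w A + 1 := by exact_mod_cast hm1
      linarith
    · have h1 := hlow C (cC b) hC hc bC
      have h2 : ((vor S).dist w C : ℝ) ≤ (vor S).dist w u1 + (vor S).dist u1 C := by
        exact_mod_cast hconn.dist_triangle
      have h3 : ((vor S).dist A C : ℝ) ≤ 2 * (vor S).dist w C + 1 := by exact_mod_cast hm2
      linarith
  -- lower bound
  have hdA : b + 1 / 8 ≤ (A : ℍ).re ∧ (A : ℍ).re ≤ b + 7 / 8 ∧ 9 / 8 ≤ (A : ℍ).im ∧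
      (A : ℍ).im ≤ 15 / 8 := by
    refine deep A (cA b) (hA.trans ?_) bA
    exact div_le_div_of_nonneg_right (by norm_num) hNr.le
  have hdC : b + 1 / 8 ≤ (C : ℍ).re ∧ (C : ℍ).re ≤ b + 7 / 8 ∧ 9 / 8 ≤ (C : ℍ).im ∧
      (C : ℍ).im ≤ 15 / 8 := by
    refine deep C (cC b) (hC.trans ?_) bC
    exact div_le_div_of_nonneg_right (by norm_num) hNr.le
  have hsmall : 4 / (N : ℝ) * (((vor S).dist A C : ℝ) + 1) ≤ 1 / 32 :=
    small_aux hNr hκr hbigr hAC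
  have hf := graph_dist_lt hpath hconn hN0 h (p := A) (q := C) (r := 1 / 32)
      (ball_sub_bigQ hdA.1 hdA.2.1 hdA.2.2.1 hdA.2.2.2) hsmall
  have hf2 : dist (A : ℍ) C ≤ 1 / 32 := by
    have h4 : (0 : ℝ) ≤ 4 / N := by positivity
    rw [mul_add, mul_one] at hsmall
    linarith
  have hf3 : dist ((A : ℍ) : ℂ) C ≤ 1 / 8 := by
    have := coe_dist_le_of_dist (inQ C hdC).1 hf2 (by norm_num)
    linarith
  have hf4 : dist (cA b) (cC b) ≤ 1 / 4 := by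
    have a1 := dist_triangle (cA b) ((A : ℍ) : ℂ) (cC b)
    have a2 := dist_triangle ((A : ℍ) : ℂ) ((C : ℍ) : ℂ) (cC b)
    rw [dist_comm (cA b) ((A : ℍ) : ℂ)] at a1
    linarith
  have hf5 := (coords_of_dist hf4).1
  simp only [cA, cC] at hf5
  rw [abs_le] at hf5
  linarith [hf5.1]

end Pool.Agent.TH331.HV
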